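import Pool.Agent.Helper74.BS.St

set_option autoImplicit false

/-! Module AF of the project BS (helper74): the abstract theorem with forests. -/

namespace Pool.Agent.Helper32.BS

open Pool.Agent.Helper73.DC
open Pool.Agent.Helper74.BS
open scoped Classical

theorem af_dspace_mono {α : Type} {L : Set (List α)} {S S' : ℕ → ℕ} {C' : ℕ}
    (h : ∀ n, S n ≤ C' * S' n + C') (hL : L ∈ DSPACE (α := α) S) : L ∈ DSPACE (α := α) S' := by
  obtain ⟨M, C, hM⟩ := hL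
  refine ⟨M, C * C' + C, fun w => ⟨(hM w).1, fun c hc t => ?_⟩⟩
  refine ((hM w).2 c hc t).trans_le ?_
  show C * S w.length + C ≤ (C * C' + C) * S' w.length + (C * C' + C)
  have h1 := Nat.mul_le_mul_left C (h w.length)
  have h2 : C * (C' * S' w.length + C') = C * C' * S' w.length + C * C' := by ring
  have h3 : (C * C' + C) * S' w.length = C * C' * S' w.length + C * S' w.length := by ring
  rw [h3]
  omega

theorem af_TH (L c n : ℕ) :
    L * KK c n + 1 ≤ (3 * L + 1 + c) * Nat.log 2 n ^ (3 * L + 1 + c) + (3 * L + 1 + c) := by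
  have hK : KK c n = Nat.log 2 n ^ c + 2 := rfl
  rw [hK]
  rcases Nat.eq_zero_or_pos (Nat.log 2 n) with h0 | h0
  · rw [h0]
    have h1 : (0 : ℕ) ^ c ≤ 1 := by
      rcases Nat.eq_zero_or_pos c with h | h
      · simp [h]
      · simp [Nat.pos_iff_ne_zero.1 h]
    have h2 : L * (0 ^ c + 2) ≤ L * 3 := Nat.mul_le_mul_left L (by omega)
    have h3 : 3 * L + 1 + c ≤ (3 * L + 1 + c) * 0 ^ (3 * L + 1 + c) + (3 * L + 1 + c) := Nat.le_add_left _ _
    omega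
  · have h1 : Nat.log 2 n ^ c ≤ Nat.log 2 n ^ (3 * L + 1 + c) := Nat.pow_le_pow_right h0 (by omega)
    have h2 : L * Nat.log 2 n ^ c ≤ (3 * L + 1 + c) * Nat.log 2 n ^ (3 * L + 1 + c) :=
      Nat.mul_le_mul (by omega) h1
    have h3 : L * (Nat.log 2 n ^ c + 2) = L * Nat.log 2 n ^ c + 2 * L := by ring
    rw [h3]
    omega

/-- The common part of both claims. -/
theorem af_core (hAB : StAB) (hAU : StAU) (hCO : StCO) (hSO : StSO) (hVE : StVE)
    {α : Type} [Fintype α] (cl lf tn : List α → ℕ → ℕ) (rs : List α → ℕ → ℕ → ℕ) (c0 : List α → ℕ)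
    (gd : List α → ℕ → Prop) (e c L : ℕ)
    (h1 : E2 (fun w v => cl w (v 0))) (h2 : E2 (fun w v => rs w (v 0) (v 1))) (h3 : E2 (fun w v => lf w (v 0)))
    (h4 : E2 (fun w v => tn w (v 0))) (h5 : E2 (fun w _ => c0 w))
    (b1 : ∀ w x, cl w x < (w.length + 2) ^ e) (b2 : ∀ w x r, rs w x r < (w.length + 2) ^ e)
    (b3 : ∀ w x, lf w x < (w.length + 2) ^ e) (b4 : ∀ w, c0 w < (w.length + 2) ^ e)
    (g0 : ∀ w, gd w (c0 w))
    (g1 : ∀ w x, gd w x → lf w x = 0 → tn w x ≠ 0 → gd w (rs w x 0))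
    (g2 : ∀ w x, gd w x → lf w x = 0 → tn w x = 0 →
      gd w (cl w x) ∧ ∀ r f, EvF (lf w) (cl w) (rs w) (tn w) (cl w x) r f → f ≠ Fo.nil ∧ gd w (rs w x r))
    (g3 : ∀ w x r f, gd w x → EvF (lf w) (cl w) (rs w) (tn w) x r f → wd f ≤ L)
    (Rf : ℕ → ℕ) (hR : E2 (α := α) (fun w _ => Rf w.length)) (m i : ℕ) :
    ∃ Lg : Set (List α), Lg ∈ DSPACE (α := α) (fun n => (Rf n + 1 + 1) * Nat.log 2 (n + 2)) ∧
      {w | ∃ f, EvF (lf w) (cl w) (rs w) (tn w) (c0 w) 0 f ∧ cn (KK c w.length) (Rf w.length + 1) f = 0 ∧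
        dg (KK c w.length + 1) (vec (KK c w.length) m f) i = 0} ⊆ Lg ∧
      Lg ⊆ {w | ∃ f, EvF (lf w) (cl w) (rs w) (tn w) (c0 w) 0 f ∧
        dg (KK c w.length + 1) (vec (KK c w.length) m f) i = 0} := by
  obtain ⟨e1, e2, e3, e4, e5, e', d1, d2, d3, d4⟩ := hAU cl lf tn rs c0 e c m i h1 h2 h3 h4 h5 b1 b2 b3 b4
  obtain ⟨v1, -, -, -, -, -, v7, -, -⟩ := hVE
  have hK1 : ∀ n, 1 ≤ KK c n := fun n => by
    show 1 ≤ Nat.log 2 n ^ c + 2
    omega
  refine hAB _ _ (fun w => clA (VV c m w.length) (cl w) (rs w) (tn w))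
    (fun w => lfA (VV c m w.length) ((w.length + 2) ^ e) (lf w))
    (fun w => rsA (KK c w.length) m (VV c m w.length) ((w.length + 2) ^ e) (rs w) (tn w))
    (fun w => c0 w * VV c m w.length)
    (fun w r => r / VV c m w.length = 0 ∧ dg (KK c w.length + 1) (r % VV c m w.length) i = 0)
    (fun n => Rf n + 1) e' (3 * L + 1 + c) e2 e3 e1 e4 e5 (E2.succ _ hR) d2 d3 d1 d4 ?_ ?_
  · rintro w ⟨f, hf, hcn, hdg⟩
    have hV : VV c m w.length = (KK c w.length + 1) ^ m := rfl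
    have hVpos : 0 < (KK c w.length + 1) ^ m := Nat.pow_pos (by omega)
    obtain ⟨c1, hc1, hE⟩ := hCO (lf w) (cl w) (tn w) (rs w) (gd w) (KK c w.length) m L ((w.length + 2) ^ e)
      (hK1 _) (b1 w) (b2 w) (b3 w) (g1 w) (g2 w) (g3 w) (c0 w) 0 f hf (g0 w) (b4 w) (Rf w.length + 1) 0 hVpos
    rw [hcn] at hc1
    have hc1' : c1 = 0 := by omega
    rw [hc1', Nat.add_zero, Nat.zero_mul, Nat.zero_add, (v7 _ _ _ (v1 _ _ f)).2] at hE
    refine ⟨vec (KK c w.length) m f, L * KK c w.length + 1, af_TH L c w.length, ⟨?_, ?_⟩, hE⟩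
    · show vec (KK c w.length) m f / VV c m w.length = 0
      rw [hV]
      exact Nat.div_eq_of_lt (v1 _ _ f)
    · show dg (KK c w.length + 1) (vec (KK c w.length) m f % VV c m w.length) i = 0
      rw [hV, Nat.mod_eq_of_lt (v1 _ _ f)]
      exact hdg
  · intro w r mm nn hEv hg
    have hV : VV c m w.length = (KK c w.length + 1) ^ m := rfl
    have hVpos : 0 < (KK c w.length + 1) ^ m := Nat.pow_pos (by omega)
    obtain ⟨hg1, hg2⟩ := hg
    obtain ⟨r', f, hf, -, hr⟩ := hSO (lf w) (cl w) (tn w) (rs w) (KK c w.length) m ((w.length + 2) ^ e)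
      (hK1 _) (b1 w) (b2 w) (b3 w) (c0 w * VV c m w.length) r mm nn hEv (c0 w) 0 (b4 w) hVpos (by rw [hV]; rfl)
    rw [(v7 _ _ _ (v1 _ _ f)).2] at hr
    have hlt := v1 (KK c w.length) m f
    rw [hV] at hg1 hg2
    have hr0 : r' = 0 := by
      have h := hg1
      rw [hr, Nat.add_comm, Nat.add_mul_div_right _ _ hVpos, Nat.div_eq_of_lt hlt] at h
      omega
    subst hr0
    rw [Nat.zero_mul, Nat.zero_add] at hr
    rw [hr, Nat.mod_eq_of_lt hlt] at hg2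
    exact ⟨f, hf, hg2⟩

theorem hAF (hAB : StAB) (hAU : StAU) (hCO : StCO) (hSO : StSO) (hVE : StVE)
    (hA2 : Pool.Agent.Helper83.PT.StA2) (_hL1 : StL1) (_hL2 : StL2) : Pool.Agent.Helper74.BS.StAF := by
  intro α _ cl lf tn rs c0 gd e c L h1 h2 h3 h4 h5 b1 b2 b3 b4 g0 g1 g2 g3
  refine ⟨fun Rf hR => ?_, fun R => ?_⟩
  · obtain ⟨Lg, hLg, ha, hb⟩ := af_core hAB hAU hCO hSO hVE cl lf tn rs c0 gd e c L h1 h2 h3 h4 h5 b1 b2 b3 b4 g0
      g1 g2 g3 Rf hR 0 0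
    refine ⟨Lg, af_dspace_mono (C' := 2) (fun n => ?_) hLg, ?_, ?_⟩
    · show (Rf n + 1 + 1) * Nat.log 2 (n + 2) ≤ 2 * ((Rf n + 1) * Nat.log 2 (n + 2)) + 2
      have : (Rf n + 1 + 1) * Nat.log 2 (n + 2) ≤ (2 * (Rf n + 1)) * Nat.log 2 (n + 2) :=
        Nat.mul_le_mul_right _ (by omega)
      rw [Nat.mul_assoc] at this
      omega
    · rintro w ⟨f, hf, hc⟩
      refine ha ⟨f, hf, hc, ?_⟩
      simp [vec, vcod, dg]
    · intro w hw
      obtain ⟨f, hf, -⟩ := hb hw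
      exact ⟨f, hf⟩
  · obtain ⟨Lg, hLg, ha, hb⟩ := af_core hAB hAU hCO hSO hVE cl lf tn rs c0 gd e c L h1 h2 h3 h4 h5 b1 b2 b3 b4 g0
      g1 g2 g3 (fun _ => R) (E2.const R) (R + 2) (R + 1)
    obtain ⟨-, -, -, -, -, -, -, -, v9⟩ := hVE
    have hK1 : ∀ n, 1 ≤ KK c n := fun n => by
      show 1 ≤ Nat.log 2 n ^ c + 2
      omega
    have key : ∀ (w : List α) (f : Fo), dg (KK c w.length + 1) (vec (KK c w.length) (R + 2) f) (R + 1) = 0 ↔
        cn (KK c w.length) (R + 1) f = 0 := by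
      intro w f
      rw [v9 _ _ _ _ (by omega)]
      have := hK1 w.length
      omega
    have hEq : Lg = {w | ∃ f, EvF (lf w) (cl w) (rs w) (tn w) (c0 w) 0 f ∧ cn (KK c w.length) (R + 1) f = 0} := by
      apply Set.Subset.antisymm
      · intro w hw
        obtain ⟨f, hf, hd⟩ := hb hw
        exact ⟨f, hf, (key w f).1 hd⟩
      · rintro w ⟨f, hf, hc⟩
        exact ha ⟨f, hf, hc, (key w f).2 hc⟩
    rw [← hEq]
    obtain ⟨C', hC'⟩ := hA2.2 (R + 1)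
    exact af_dspace_mono (fun n => hC' n) hLg

end Pool.Agent.Helper32.BS
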